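import Mathlib
import Pool.Agent.TH119.TO.SimT

/-!
# Relations of degree two decide the de Rham–Betti torsor

Let `M` be a de Rham–Betti object of rank `2g` over a field `K ⊂ ℂ` of algebraic numbers, with a
non-degenerate alternating form with values in a Tate object: `h¹` of a polarised abelian variety
of dimension `g`, or the cohomology in odd degree of a variety.  In symplectic bases (over `K` on
the de Rham side, over `ℚ` on the Betti side) the comparison isomorphism is a matrix `E` with
`E J Eᵀ = λ J`, where `λ = (2πi)^j`.  We show: if the entries of `E` have no extra polynomial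
relation of degree two, then the smallest `K`-subtorsor `Ω_M` which contains `E` is the torsor of
all symplectic similitudes.
-/

namespace Pool.Agent.Results.MP_f11a48_ag.DegreeTwoRelations

open Matrix

/-- The index set of a symplectic basis. -/
abbrev Idx (g : ℕ) := Fin g ⊕ Fin g

/-- The standard alternating form `[0, 1; -1, 0]`. -/
def J (g : ℕ) : Matrix (Idx g) (Idx g) ℂ := Matrix.fromBlocks 0 1 (-1) 0

/-- The symplectic similitudes: `X J Xᵀ = c J` with `c ≠ 0`. -/
def IsSimilitude {g : ℕ} (X : Matrix (Idx g) (Idx g) ℂ) : Prop :=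
  ∃ c : ℂ, c ≠ 0 ∧ X * J g * Xᵀ = c • J g

/-- Every polynomial of degree at most `n` with coefficients in `F` which vanishes at `E` vanishes
at all symplectic similitudes. -/
def NoExtraRelation {g : ℕ} (F : Subfield ℂ) (n : ℕ) (E : Matrix (Idx g) (Idx g) ℂ) : Prop :=
  ∀ p : MvPolynomial (Idx g × Idx g) ℂ, (∀ m, p.coeff m ∈ F) → p.totalDegree ≤ n →
    MvPolynomial.eval (fun b => E b.1 b.2) p = 0 →
    ∀ X : Matrix (Idx g) (Idx g) ℂ, IsSimilitude X →
      MvPolynomial.eval (fun b => X b.1 b.2) p = 0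

/-- The complex points of a `K`-subtorsor of `GL_N = Iso(K^N, K^N)`: a set `T` of invertible
matrices with `x y⁻¹ z ∈ T` for all `x, y, z ∈ T`, which is the set of the invertible zeros of a
family of polynomials with coefficients in `K`. -/
structure IsSubtorsor {N : Type} [Fintype N] [DecidableEq N] (K : Subfield ℂ)
    (T : Set (Matrix N N ℂ)) : Prop where
  isUnit : ∀ x ∈ T, IsUnit x
  torsor : ∀ x ∈ T, ∀ y ∈ T, ∀ z ∈ T, x * y⁻¹ * z ∈ T
  algebraic : ∃ I : Set (MvPolynomial (N × N) ℂ), (∀ p ∈ I, ∀ m, p.coeff m ∈ K) ∧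
    ∀ x : Matrix N N ℂ, x ∈ T ↔ IsUnit x ∧
      ∀ p ∈ I, MvPolynomial.eval (fun b => x b.1 b.2) p = 0

/-- The smallest `K`-subtorsor which contains `E`: the intersection of all of them. -/
def smallestSubtorsor {N : Type} [Fintype N] [DecidableEq N] (K : Subfield ℂ)
    (E : Matrix N N ℂ) : Set (Matrix N N ℂ) :=
  {X | ∀ T : Set (Matrix N N ℂ), IsSubtorsor K T → E ∈ T → X ∈ T}

/-! ### Proof -/

theorem isUnit_iff {N : Type} [Fintype N] [DecidableEq N] (x : Matrix N N ℂ) :
    IsUnit x ↔ ∃ y, x * y = 1 ∧ y * x = 1 := by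
  constructor
  · rintro ⟨u, rfl⟩
    exact ⟨(u⁻¹ : (Matrix N N ℂ)ˣ), u.mul_inv, u.inv_mul⟩
  · rintro ⟨y, h1, h2⟩
    exact ⟨⟨x, y, h1, h2⟩, rfl⟩

theorem tors_iff {N : Type} [Fintype N] [DecidableEq N] (K : Subfield ℂ)
    (T : Set (Matrix N N ℂ)) : Pool.Agent.TH119.TO.Tors K T ↔ IsSubtorsor K T := by
  constructor
  · intro h
    refine ⟨fun x hx => (isUnit_iff x).2 (h.inv x hx), fun x hx y hy z hz => ?_, ?_⟩
    · obtain ⟨y', h1, h2⟩ := h.inv y hy
      rw [Matrix.inv_eq_right_inv h1]
      exact h.tri x hx y hy z hz y' h1 h2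
    · obtain ⟨I, h1, h2⟩ := h.alg
      exact ⟨I, h1, fun x => by rw [h2, isUnit_iff]⟩
  · intro h
    refine ⟨fun x hx => (isUnit_iff x).1 (h.isUnit x hx), fun x hx y hy z hz y' h1 h2 => ?_, ?_⟩
    · have h3 := h.torsor x hx y hy z hz
      rwa [Matrix.inv_eq_right_inv h1] at h3
    · obtain ⟨I, h1, h2⟩ := h.algebraic
      exact ⟨I, h1, fun x => by rw [h2, isUnit_iff]⟩

/-- **Theorem.** Let `g ≥ 1`, let `F` be a field of algebraic numbers and `K` a finite extension of
`F` in `ℂ` of degree at most `D`. Let `E` be a matrix with `E J Eᵀ = λ J` such that `λ` and some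
quotient of entries of `E` are transcendental. If the entries of `E` satisfy no polynomial relation
of degree at most `2 D` over `F` except those which hold for all symplectic similitudes, then the
smallest `K`-subtorsor which contains `E` is the torsor of all symplectic similitudes. -/
theorem result {g D : ℕ} (hg : 0 < g) (F : Subfield ℂ) (hF : ∀ x ∈ F, IsAlgebraic ℚ x)
    (K : IntermediateField F ℂ) [FiniteDimensional F K] (hK : Module.finrank F K ≤ D)
    (E : Matrix (Idx g) (Idx g) ℂ) (lam : ℂ) (hE : E * J g * Eᵀ = lam • J g)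
    (hlam : Transcendental ℚ lam)
    (hratio : ∃ i j k l, E k l ≠ 0 ∧ Transcendental ℚ (E i j / E k l))
    (hrel : NoExtraRelation F (2 * D) E) :
    smallestSubtorsor K.toSubfield E = {X | IsSimilitude X} := by
  have h1 := Pool.Agent.TH119.TO.main hg F hF K hK hE hlam hratio hrel
  change _ = {X | Pool.Agent.TH119.TO.Sim X}
  rw [← h1]
  ext X
  constructor
  · intro h T hT hET
    exact h T ((tors_iff _ T).1 hT) hET
  · intro h T hT hET
    exact h T ((tors_iff _ T).2 hT) hET

end Pool.Agent.Results.MP_f11a48_ag.DegreeTwoRelations
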