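import Pool.Agent.TH127.PG.Cond

/-!
# De Rham-Betti classes and Hodge classes on abelian varieties of CM type with good classes

Let `A i = (E i, Φ i)` be finitely many CM types, and let `M` be the sum of the motives `h^1 (A i)`
of the corresponding abelian varieties over the field of algebraic numbers. All tensor spaces of `M`
are, up to Tate twists and duals (which are given by polarizations), contained in the cohomology of
the products `X` of copies of the `A i`. By the theorem of Deligne and André Hodge classes on `X` are
motivated, so `Ω^dRB_M = Ω^And_M` says that every de Rham-Betti class in `H^{2k}(X)(k)`, for all `X`
and `k`, is a Hodge class (`AllHodge`).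

The periods enter as a `PeriodSystem` (helper537): a nonzero number `θ A φ` for every CM type
`A = (E, Φ)` and every embedding `φ` of `E`, such that the theorem of Bost (de Rham-Betti classes of
degree two on abelian varieties of CM type are Hodge classes; a consequence of the theorem of
Wüstholz) and the theorem of Deligne (Hodge classes on abelian varieties are de Rham-Betti classes)
hold. Both are theorems for the true periods.

Two complex embeddings `x`, `y` of a family of fields are *flipped* if some automorphism of `ℂ` fixes
one of them and conjugates the other, or maps `x` to `y` and `y` to the complex conjugate of `x`. The
*classes* are those of the equivalence relation generated by not being flipped. A class is *good* if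
its elements are translates of each other under the automorphisms of `ℂ`, and if it consists of `b`
pairs of conjugate embeddings where `b` is `1` or a prime number, or any two of the pairs can be moved
to any two others and `b` is odd or `b - 1` is prime or the same is true for any three pairs.

The assumption (`AbelianMildOrGood`) on the fields: every family of CM subfields `T i ⊆ E i`,
`i ∈ S ≠ ∅`, whose excess functions are not proportional, consists of abelian extensions of `ℚ`, or is
mild (some prime number divides one discriminant, and its third power does not divide the product;
or some automorphism moves few embeddings; or one acts on the pairs as one cycle of odd prime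
length), or has an embedding whose class is good.

1. Criterion: all de Rham-Betti classes on all products are Hodge classes if and only if this is
   true for the relations with two terms (`TwoTermRelations`) between the periods of the determinants
   of `h^1 (A i)` over the CM subfields. The relations with two terms are explained by the types, so
   that all de Rham-Betti classes are Hodge classes, if every CM subfield `T` of every `E i` is
   abelian over `ℚ`, or has excess of constant absolute value, or contains no smaller CM field and has
   excesses with at most one nonzero absolute value, and if isomorphic CM subfields of different
   `E i` are abelian over `ℚ` (`SimpleSubfields`).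
2. The assumption holds if all classes of embeddings of the `E i` are good. If moreover the `E i`
   have no proper CM subfields and are pairwise non-isomorphic, then for all CM types all de
   Rham-Betti classes on all products are Hodge classes.
3. For a single CM type `(E, Φ)` the assumption holds if the degree of `E` is `2 n` with `n` equal to
   `1` or a prime number or a product of two prime numbers, and in the last case the embeddings do
   not form one class. If moreover `E` has no proper CM subfield then all de Rham-Betti classes on all
   powers of the abelian variety are Hodge classes, for all CM types `Φ` of `E`.

The case of abelian or mild families is `MildCMMotives`. The proof for good classes: relations between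
the conjugates of the logarithms of the periods split over the classes, since the correlations
(with respect to linear functionals on `ℂ` modulo logarithms of algebraic numbers) of flipped
embeddings vanish; the relations inside a good class are invariant under some automorphism that moves
an embedding, and come from proper subfields.
-/

namespace Pool.Agent.Results.MP_f11a48_ag.GoodClassCMMotives

open NumberField Pool.Agent.W547.KB Pool.Agent.W537.PC Pool.Agent.W527.Per
  Pool.Agent.W527.Struct Pool.Agent.TH127.SC Pool.Agent.TH127.PG

/-- De Rham-Betti classes and Hodge classes on products of abelian varieties of CM type whose fields
have good classes of embeddings. -/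
theorem result (P : PeriodSystem) (hBost : P.Bost) (hDeligne : P.Deligne) :
    -- 1
    (∀ {ι : Type} [Fintype ι] (A : ι → CMPair), AbelianMildOrGood A →
      (AllHodge P A ↔ TwoTermRelations P A) ∧ (SimpleSubfields A → AllHodge P A)) ∧
    -- 2
    (∀ {ι : Type} [Fintype ι] (A : ι → CMPair), (∀ x : Embs (fun i => (A i).E), Good x) →
      AbelianMildOrGood A ∧ (Rigid A → AllHodge P A)) ∧
    -- 3
    (∀ B : CMPair, SmallDegree B.E → AbelianMildOrGood (fun _ : Unit => B) ∧
      ((∀ T : IntermediateField ℚ B.E, IsCM T → T = ⊤) → AllHodge P (fun _ : Unit => B))) := by
  have h1 : ∀ {ι : Type} [Fintype ι] (A : ι → CMPair), AbelianMildOrGood A →
      (AllHodge P A ↔ TwoTermRelations P A) ∧ (SimpleSubfields A → AllHodge P A) := by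
    intro ι _ A hA
    exact ⟨allHodge_iff_good A hBost hDeligne hA, fun hS =>
      (allHodge_iff_good A hBost hDeligne hA).2 (twoTerm_of_simpleSubfields A hBost hDeligne hS)⟩
  have h2 : ∀ {ι : Type} [Fintype ι] (A : ι → CMPair),
      (∀ x : Embs (fun i => (A i).E), Good x) →
      AbelianMildOrGood A ∧ (Rigid A → AllHodge P A) := by
    intro ι _ A hA
    have h3 := abelianMildOrGood_of_good A hA
    exact ⟨h3, fun hR => (h1 A h3).2 (simpleSubfields_of_rigid hR)⟩
  refine ⟨h1, h2, fun B hB => ?_⟩
  obtain ⟨h3, h4⟩ := h2 (fun _ : Unit => B) (fun x => (good_of_smallDegree hB x).1)
  exact ⟨h3, fun hT => h4 ⟨fun _ T hT' => hT T hT', fun i i' h => (h rfl).elim⟩⟩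

end Pool.Agent.Results.MP_f11a48_ag.GoodClassCMMotives
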