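import Pool.Agent.TH164.A1.Hyp
import Pool.Agent.H297R2.InBakerThm

/-!
# The motivic period torsor for Mumford-Tate groups of type `A₁ × ⋯ × A₁`

Let `M` be the motive `h¹(A)` of an abelian variety `A` over the field of algebraic numbers whose
Mumford-Tate group is, over the algebraic numbers, the image of `𝔾_m × ∏ i : ι, SL₂`: the centre
consists of the homotheties and the derived group is isogenous to a product of groups `SL₂`. Then
`M`, with algebraic coefficients, is a sum of multiples of pairwise non-isomorphic simple objects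
`W c`, `c ∈ C`, and by Deligne (the representation is minuscule) `W c` is the tensor product of the
standard representations of the factors `i ∈ S c`, where `S c` is a subset of `ι`. Examples:

* `S c = {c}`: powers and products of elliptic curves without complex multiplication, abelian
  varieties with real or quaternionic multiplication and Hodge group of this type;
* one `c` and `S c = ι` with `3` elements: the fourfolds of Mumford with `End A = ℤ`;
* the abelian varieties which Shimura curves parametrize (Shimura, Mumford, Addington).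

The period matrix of `M` is the block diagonal matrix with blocks the period matrices `P c` of the
`W c`, in algebraic bases. Two theorems on the periods of abelian varieties enter as hypotheses.

* `hDeligne` (Deligne: Hodge classes on abelian varieties are absolute Hodge classes; André: they
  are motivated): the comparison isomorphism belongs to the motivic torsor, which is trivial over
  the algebraic numbers.
* `hWustholz` (Wüstholz): all linear relations with algebraic coefficients between the periods of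
  `A` are given by endomorphisms of `A`; so the entries of the matrices `P c` are linearly
  independent over the algebraic numbers.

The theorem: if any two factors `i ≠ j` are seen by one `S c`, or by two sets `S c`, `S c'` that
differ only by `i` and `j`, then the motivic torsor is the smallest torsor over the algebraic
numbers that contains the comparison isomorphism. (The condition on the sets `S c` is needed: for
`s i = s j` and otherwise general `s` the entries are linearly independent if it does not hold.)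
-/

set_option autoImplicit false
set_option linter.unusedSectionVars false

namespace Pool.Agent.Results.MP_f11a48_ag.MumfordTypeMotives

open Matrix

section defs

variable {C ι : Type} [Fintype C] [DecidableEq C] [Fintype ι] [DecidableEq ι]

/-- The indices of the bases. The piece `c` is the tensor product of planes indexed by `S c`. -/
abbrev Idx (S : C → Finset ι) : Type := Σ c : C, S c → Fin 2

/-- The matrix of `t` times the tensor product of the matrices `g i`, `i ∈ S`. -/
def tensor (S : Finset ι) (g : ι → Matrix (Fin 2) (Fin 2) ℂ) (t : ℂ) :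
    Matrix (S → Fin 2) (S → Fin 2) ℂ :=
  Matrix.of fun a b => t * ∏ i : S, g i (a i) (b i)

theorem tensor_eq (S : Finset ι) (g : ι → Matrix (Fin 2) (Fin 2) ℂ) (t : ℂ) :
    tensor S g t = t • Pool.Agent.TH164.A1.kr S g := rfl

/-- The element of the motivic Galois group given by the matrices `g i` and the homothety `t`. -/
def element (S : C → Finset ι) (g : ι → Matrix (Fin 2) (Fin 2) ℂ) (t : ℂ) :
    Matrix (Idx S) (Idx S) ℂ :=
  blockDiagonal' fun c => tensor (S c) g t

theorem element_eq (S : C → Finset ι) (g : ι → Matrix (Fin 2) (Fin 2) ℂ) (t : ℂ) :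
    element S g t = Pool.Agent.TH164.A1.rg S g t := rfl

theorem element_mul (S : C → Finset ι) (g h : ι → Matrix (Fin 2) (Fin 2) ℂ) (t u : ℂ) :
    element S g t * element S h u = element S (g * h) (t * u) :=
  Pool.Agent.TH164.A1.rg_mul S g h t u

/-- Being an element of the motivic Galois group, the image of `𝔾_m × ∏ i : ι, SL₂`. -/
def IsElement (S : C → Finset ι) (x : Matrix (Idx S) (Idx S) ℂ) : Prop :=
  ∃ (g : ι → Matrix (Fin 2) (Fin 2) ℂ) (t : ℂ), (∀ i, (g i).det = 1) ∧ t ≠ 0 ∧ x = element S g t

theorem isElement_one (S : C → Finset ι) : IsElement S 1 :=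
  ⟨1, 1, fun i => det_one, one_ne_zero, (Pool.Agent.TH164.A1.rg_one S).symm⟩

theorem isElement_mul {S : C → Finset ι} {x y : Matrix (Idx S) (Idx S) ℂ} (hx : IsElement S x)
    (hy : IsElement S y) : IsElement S (x * y) := by
  obtain ⟨g, t, h1, h2, h3⟩ := hx
  obtain ⟨g', t', h1', h2', h3'⟩ := hy
  exact ⟨g * g', t * t', fun i => by rw [Pi.mul_apply, det_mul, h1, h1', mul_one],
    mul_ne_zero h2 h2', by rw [h3, h3', element_mul]⟩

theorem isElement_inv {S : C → Finset ι} {x : Matrix (Idx S) (Idx S) ℂ} (hx : IsElement S x) :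
    IsElement S x⁻¹ := by
  obtain ⟨g, t, h1, h2, h3⟩ := hx
  have hu : ∀ i, IsUnit (g i).det := fun i => by
    rw [h1]
    exact isUnit_one
  refine ⟨fun i => (g i)⁻¹, t⁻¹, fun i => ?_, inv_ne_zero h2, ?_⟩
  · rw [Matrix.det_nonsing_inv, h1, Ring.inverse_one]
  · rw [h3]
    exact Matrix.inv_eq_right_inv (Pool.Agent.TH164.A1.rg_inv
      (fun i => Matrix.mul_nonsing_inv _ (hu i)) (mul_inv_cancel₀ h2))

theorem mul_closed (S : C → Finset ι) {x y : GL (Idx S) ℂ} (hx : IsElement S x.val)
    (hy : IsElement S y.val) : IsElement S (x * y).val :=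
  isElement_mul hx hy

theorem inv_closed (S : C → Finset ι) {x : GL (Idx S) ℂ} (hx : IsElement S x.val) :
    IsElement S (x⁻¹).val := by
  rw [Matrix.coe_units_inv]
  exact isElement_inv hx

/-- The motivic Galois group: the image of `𝔾_m × ∏ i : ι, SL₂`. -/
def motivicGroup (S : C → Finset ι) : Subgroup (GL (Idx S) ℂ) where
  carrier := {x | IsElement S x.val}
  mul_mem' := mul_closed S
  one_mem' := isElement_one S
  inv_mem' := inv_closed S

/-- Every two factors are seen by one piece, or by two pieces which differ only by them. -/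
def Separated (S : C → Finset ι) : Prop :=
  ∀ i j, i ≠ j → (∃ c, i ∈ S c ∧ j ∈ S c) ∨
    ∃ c c', i ∈ S c ∧ j ∈ S c' ∧ (S c).erase i = (S c').erase j

/-- The matrices `P c` are, in other algebraic bases of the de Rham spaces, the blocks of a complex
point of the motivic Galois group; the homothety is a square root of `2πi` (because of the
polarization, the relation of Legendre). -/
def InMotivicTorsor (S : C → Finset ι) (P : ∀ c, Matrix (S c → Fin 2) (S c → Fin 2) ℂ) : Prop :=
  ∃ (s : ι → Matrix (Fin 2) (Fin 2) ℂ) (z : ℂ) (A : ∀ c, Matrix (S c → Fin 2) (S c → Fin 2) ℂ),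
    (∀ i, (s i).det = 1) ∧ z ^ 2 = 2 * Real.pi * Complex.I ∧
      (∀ c a b, IsAlgebraic ℚ (A c a b)) ∧ ∀ c, P c * A c = tensor (S c) s z

/-- The entries of all matrices `P c` are linearly independent over the algebraic numbers. -/
def IndependentEntries (S : C → Finset ι) (P : ∀ c, Matrix (S c → Fin 2) (S c → Fin 2) ℂ) :
    Prop :=
  LinearIndependent (algebraicClosure ℚ ℂ)
    fun x : Σ c : C, (S c → Fin 2) × (S c → Fin 2) => P x.1 x.2.1 x.2.2

/-- A subgroup of `GL_N(ℂ)` defined by polynomials with algebraic coefficients. -/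
def IsAlgebraicSubgroup {N : Type} [Fintype N] [DecidableEq N] (H : Subgroup (GL N ℂ)) : Prop :=
  ∃ I : Set (MvPolynomial (N × N) ℂ), (∀ p ∈ I, ∀ m, IsAlgebraic ℚ (p.coeff m)) ∧
    ∀ g : GL N ℂ, g ∈ H ↔ ∀ p ∈ I, MvPolynomial.eval (fun b => (g : Matrix N N ℂ) b.1 b.2) p = 0

/-- The matrix `P` belongs to a torsor `H · A⁻¹` of `H` defined over the algebraic numbers. -/
def HasPoint {N : Type} [Fintype N] [DecidableEq N] (P : Matrix N N ℂ) (H : Subgroup (GL N ℂ)) :
    Prop :=
  ∃ A : Matrix N N ℂ, (∀ i j, IsAlgebraic ℚ (A i j)) ∧ ∃ g ∈ H, (g : Matrix N N ℂ) = P * A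

end defs

section proof

variable {C ι : Type} [Fintype C] [DecidableEq C] [Fintype ι] [DecidableEq ι]

open Pool.Agent.TH164.A1 Pool.Agent.TH119.MX Pool.Agent.TH119.DR

theorem two_pi_I_transcendental : ¬ IsAlgebraic ℚ (2 * Real.pi * Complex.I : ℂ) := by
  intro h
  have h1 := Pool.Agent.H297R2.baker_inhom (ι := Unit) (fun _ => 2 * Real.pi * Complex.I)
    (fun _ => by
      rw [Complex.exp_two_pi_mul_I]
      exact isAlgebraic_one)
    (LinearIndependent.of_subsingleton (R := ℚ) () Complex.two_pi_I_ne_zero)
    (-(2 * Real.pi * Complex.I)) h.neg (fun _ => 1) (fun _ => isAlgebraic_one) (by simp)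
  exact one_ne_zero (h1.2 ())

theorem linK {S : C → Finset ι} {P A : ∀ c, Matrix (S c → Fin 2) (S c → Fin 2) ℂ}
    {s : ι → Matrix (Fin 2) (Fin 2) ℂ} {z : ℂ} (hs : ∀ i, (s i).det = 1) (hz : z ≠ 0)
    (hA : ∀ c a b, IsAlgebraic ℚ (A c a b)) (hP : ∀ c, P c * A c = tensor (S c) s z)
    (hW : IndependentEntries S P) : LinK S QA s z := by
  intro B hB h0
  have h1 : ∀ c, (B c * (z • kr (S c) s)).trace = ∑ x : (S c → Fin 2) × (S c → Fin 2),
      (A c * B c) x.2 x.1 * P c x.1 x.2 := by
    intro c
    rw [← tensor_eq, ← hP, ← Matrix.mul_assoc, Matrix.trace_mul_comm, ← Matrix.mul_assoc,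
      Matrix.trace_mul_comm, Matrix.trace, Fintype.sum_prod_type]
    refine Finset.sum_congr rfl fun x _ => ?_
    rw [Matrix.diag_apply, Matrix.mul_apply]
    exact Finset.sum_congr rfl fun y _ => mul_comm _ _
  have hmem : ∀ c x y, (A c * B c) x y ∈ algebraicClosure ℚ ℂ := by
    intro c x y
    have : (A c * B c) x y ∈ QA := by
      rw [Matrix.mul_apply]
      exact QA.sum_mem fun e _ => QA.mul_mem (mem_QA.2 (hA c x e)) (hB c e y)
    exact mem_algebraicClosure_iff.2 (mem_QA.1 this)
  have h2 := Fintype.linearIndependent_iff.1 hW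
    (fun x => (⟨(A x.1 * B x.1) x.2.2 x.2.1, hmem _ _ _⟩ : algebraicClosure ℚ ℂ)) (by
      rw [Fintype.sum_sigma, ← h0]
      refine Finset.sum_congr rfl fun c _ => ?_
      rw [h1]
      rfl)
  intro c
  have h3 : A c * B c = 0 := by
    ext x y
    exact congrArg Subtype.val (h2 ⟨c, y, x⟩)
  have hu : ∀ i, s i * (s i)⁻¹ = 1 := fun i =>
    Matrix.mul_nonsing_inv _ (by rw [hs]; exact isUnit_one)
  have h4 : (z⁻¹ • kr (S c) (fun i => (s i)⁻¹)) * (P c * A c) = 1 := by
    rw [hP, tensor_eq, Matrix.smul_mul, Matrix.mul_smul, smul_smul, inv_mul_cancel₀ hz, one_smul,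
      kr_mul, ← kr_one]
    congr 1
    funext i
    exact Matrix.nonsing_inv_mul _ (by rw [hs]; exact isUnit_one)
  have h5 : ((z⁻¹ • kr (S c) (fun i => (s i)⁻¹)) * P c) * A c = 1 := by
    rw [Matrix.mul_assoc, h4]
  calc B c = ((z⁻¹ • kr (S c) (fun i => (s i)⁻¹)) * P c) * A c * B c := by rw [h5, Matrix.one_mul]
    _ = 0 := by rw [Matrix.mul_assoc, h3, Matrix.mul_zero]

end proof

/-- **Theorem.** Suppose that every factor `i` occurs in some `S c`, and that the sets `S c`
separate the factors. Let `P c` be the period matrices of the pieces `W c`: they give a complex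
point of the motivic torsor, and their entries are linearly independent over the algebraic numbers.
Then the motivic Galois group `{t • ⊕ c, ⊗ i ∈ S c, g i | t ≠ 0, det (g i) = 1}` has a torsor over
the algebraic numbers which contains the comparison isomorphism, and it is contained in every
algebraic subgroup `H` of `GL_N`, defined over the algebraic numbers, with this property. -/
theorem result {C ι : Type} [Fintype C] [DecidableEq C] [Fintype ι] [DecidableEq ι]
    (S : C → Finset ι) (hcov : ∀ i, ∃ c, i ∈ S c) (hsep : Separated S)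
    (P : ∀ c, Matrix (S c → Fin 2) (S c → Fin 2) ℂ)
    (hDeligne : InMotivicTorsor S P) (hWustholz : IndependentEntries S P) :
    HasPoint (blockDiagonal' P) (motivicGroup S) ∧
      ∀ H : Subgroup (GL (Idx S) ℂ), IsAlgebraicSubgroup H → HasPoint (blockDiagonal' P) H →
        motivicGroup S ≤ H := by
  classical
  obtain ⟨s, z, A, hs, hz, hA, hPA⟩ := hDeligne
  have hz0 : z ≠ 0 := by
    rintro rfl
    rw [zero_pow two_ne_zero] at hz
    exact Complex.two_pi_I_ne_zero hz.symm
  have htz : ¬ IsAlgebraic ℚ z := by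
    intro h
    apply two_pi_I_transcendental
    rw [← hz]
    exact h.pow 2
  have hbA : blockDiagonal' P * blockDiagonal' A = element S s z := by
    rw [← blockDiagonal'_mul, element]
    congr 1
    funext c
    exact hPA c
  have hbAK : ∀ i j, (blockDiagonal' A) i j ∈ Pool.Agent.TH164.A1.QA := by
    intro i j
    rw [blockDiagonal'_apply]
    split_ifs with h
    · exact Pool.Agent.TH164.A1.mem_QA.2 (hA _ _ _)
    · exact Subfield.zero_mem _
  have hu : ∀ i, IsUnit (s i).det := fun i => by
    rw [hs]
    exact isUnit_one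
  have he1 : element S s z * element S (fun i => (s i)⁻¹) z⁻¹ = 1 :=
    Pool.Agent.TH164.A1.rg_inv (fun i => Matrix.mul_nonsing_inv _ (hu i)) (mul_inv_cancel₀ hz0)
  have he2 : element S (fun i => (s i)⁻¹) z⁻¹ * element S s z = 1 :=
    Pool.Agent.TH164.A1.rg_inv (fun i => Matrix.nonsing_inv_mul _ (hu i)) (inv_mul_cancel₀ hz0)
  refine ⟨⟨blockDiagonal' A, fun i j => Pool.Agent.TH164.A1.mem_QA.1 (hbAK i j),
    ⟨_, _, he1, he2⟩, ⟨s, z, hs, hz0, rfl⟩, hbA.symm⟩, ?_⟩
  rintro H hH ⟨A', hA', g₀, hg₀, hgA⟩
  -- the two algebraic matrices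
  have hdA' : A'.det ≠ 0 := by
    intro h
    have h4 := (Matrix.isUnit_iff_isUnit_det _).1 g₀.isUnit
    rw [hgA, det_mul, h, mul_zero] at h4
    exact not_isUnit_zero h4
  have hdA : (blockDiagonal' A).det ≠ 0 := by
    intro h
    have h4 := congrArg Matrix.det he1
    rw [← hbA, det_mul, det_mul, h, mul_zero, zero_mul, det_one] at h4
    exact zero_ne_one h4
  have hAA : blockDiagonal' A * (blockDiagonal' A)⁻¹ = 1 :=
    Matrix.mul_nonsing_inv _ (isUnit_iff_ne_zero.2 hdA)
  have hAA' : (blockDiagonal' A)⁻¹ * blockDiagonal' A = 1 :=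
    Matrix.nonsing_inv_mul _ (isUnit_iff_ne_zero.2 hdA)
  have hBB : A' * A'⁻¹ = 1 := Matrix.mul_nonsing_inv _ (isUnit_iff_ne_zero.2 hdA')
  have hmul : ∀ {X Y : Matrix (Idx S) (Idx S) ℂ}, (∀ i j, X i j ∈ Pool.Agent.TH164.A1.QA) →
      (∀ i j, Y i j ∈ Pool.Agent.TH164.A1.QA) → ∀ i j, (X * Y) i j ∈ Pool.Agent.TH164.A1.QA := by
    intro X Y hX hY i j
    rw [Matrix.mul_apply]
    exact Subfield.sum_mem _ fun e _ => Subfield.mul_mem _ (hX i e) (hY e j)
  have hHal : Pool.Agent.TH119.MX.AlgGrp Pool.Agent.TH164.A1.QA (Pool.Agent.TH164.A1.carr H) := by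
    refine Pool.Agent.TH164.A1.algGrp_carr ?_
    obtain ⟨I, h4, h5⟩ := hH
    exact ⟨I, fun p hp m => Pool.Agent.TH164.A1.mem_QA.2 (h4 p hp m), h5⟩
  have hy := (linK hs hz0 hA hPA hWustholz).hy Pool.Agent.TH164.A1.sqClosed_QA hs hcov hsep htz
  rintro x ⟨g, t, hg, ht, hx⟩
  have hmain := Pool.Agent.TH164.A1.grp_main2 (F := Pool.Agent.TH164.A1.QA)
    (K := Pool.Agent.TH164.A1.QA) (S := S) (H := Pool.Agent.TH164.A1.carr H)
    (A := (blockDiagonal' A)⁻¹ * A') (A' := A'⁻¹ * blockDiagonal' A) hHal le_rfl
    (fun x => Pool.Agent.TH164.A1.mem_QA.symm) hy (by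
      calc (blockDiagonal' A)⁻¹ * A' * (A'⁻¹ * blockDiagonal' A) =
          (blockDiagonal' A)⁻¹ * (A' * A'⁻¹) * blockDiagonal' A := by
            simp only [Matrix.mul_assoc]
        _ = 1 := by rw [hBB, Matrix.mul_one, hAA'])
    (hmul (Pool.Agent.TH164.A1.inv_mem_entries fun i j =>
      Pool.Agent.TH164.A1.mem_QA.2 (hA' i j)) hbAK) (by
      rw [← element_eq, ← hbA]
      refine ⟨g₀, hg₀, ?_⟩
      rw [hgA]
      calc blockDiagonal' P * A' = blockDiagonal' P * (blockDiagonal' A * (blockDiagonal' A)⁻¹) *
          A' := by rw [hAA, Matrix.mul_one]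
        _ = _ := by simp only [Matrix.mul_assoc]) hg ht
  obtain ⟨y, hy1, hy2⟩ := hmain
  have h7 : y = x := Units.ext (by rw [hy2, hx, element_eq])
  rw [← h7]
  exact hy1

end Pool.Agent.Results.MP_f11a48_ag.MumfordTypeMotives
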