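import Pool.Agent.TH127.PG.Omega
import Pool.Agent.TH127.PG.Cond

/-!
# The smallest subtorsor that contains the period matrix of an abelian variety of CM type

Let `X` be an abelian variety over a field `K` of algebraic numbers which over the field of all
algebraic numbers is isogenous to a product of copies of abelian varieties `A i` of CM types
`(E i, Φ i)`, and let `M = h^1 (X)`. The rational homology of `X` is the product of the fields
`E (t a)`, `a ∈ J`, and the entries of the matrix of the comparison isomorphism, with respect to a
`K`-basis of `H^1_dR(X / K)` and to a basis `e` of the homology, are linear combinations with
algebraic coefficients of the numbers `θ φ * φ (e n)`, where `φ` runs through the embeddings of the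
fields `E (t a)` (`IsPeriodMatrix`).

`Ω_M` is the smallest `K`-subtorsor of `Iso(M_dR, M_B ⊗ K) = GL_N` that contains the comparison
isomorphism (`smallestSubtorsor`). It is contained in the torsor `Ω^dRB_M` of the de Rham-Betti
realization and in the torsor `Ω^And_M` of motivated periods. By the theorem of Deligne and André the
motivated Galois group of `M` over the field of all algebraic numbers is the Mumford-Tate group, a
torus; its complex points are given by scalars at the embeddings of the `E i` (`mumfordTate`), and
the geometrically irreducible component of `Ω^And_M` that contains the comparison isomorphism `c` is
`c · MT(ℂ)`. Since `Ω^And_M` is irreducible over `K`, the equalities `Ω_M = Ω^dRB_M = Ω^And_M` follow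
if all `K`-subtorsors that contain `c` contain `c · MT(ℂ)`.

The periods enter as a `PeriodSystem` (helper537): a nonzero number `θ A φ` for every CM type
`A = (E, Φ)` and every embedding `φ` of `E`, such that the theorem of Bost (de Rham-Betti classes of
degree two on abelian varieties of CM type are Hodge classes; a consequence of the theorem of
Wüstholz) and the theorem of Deligne (Hodge classes on abelian varieties are de Rham-Betti classes)
hold. Both are theorems for the true periods.

Theorem: Let `K` be linearly disjoint from the composite of the images of the `E i` in the complex
numbers (for instance `K = ℚ`). Then `c · MT(ℂ) ⊆ Ω_M` in the following cases.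

1. All `E i` are abelian over `ℚ`. For instance for the Fermat curves `F_n` over fields `K` which are
   linearly disjoint from `ℚ(μ_n)`.
2. The `E i` satisfy the conditions `AbelianMildOrGood` and `SimpleSubfields`: every family of CM
   subfields with separated excess functions is abelian over `ℚ`, or mild, or has an embedding whose
   class is good; and every CM subfield is abelian, or has excess of constant absolute value, or
   contains no smaller CM field and has excesses with at most one nonzero absolute value, and
   isomorphic CM subfields of different `E i` are abelian over `ℚ`. (For instance one CM field `E`
   of degree at most eight or twice a prime number, or pairwise non-isomorphic CM fields without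
   proper CM subfields whose embeddings fall into good classes; see `MildCMMotives` and
   `GoodClassCMMotives`.)
3. More generally, if the family is `AbelianMildOrGood` and the relations with two terms between the
   periods of the determinants over CM subfields are explained by the types (`TwoTermRelations`).

The proof: let `H` be the group of the scalars at the embeddings that preserve the subtorsor at `c`.
It is an algebraic group, so it is given by characters. The lattice of the characters that are
trivial on `H` is stable under the automorphisms over `K`, because the subtorsor is defined over `K`
and because the group of scalars is a torus over `ℚ`. For a character in this lattice the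
corresponding monomial in the periods is fixed by all automorphisms over the algebraic numbers (they
move `c` within the subtorsor), so that it is algebraic. So monomials that are algebraic together
with all their conjugates have to be controlled, as for de Rham-Betti classes.
-/

namespace Pool.Agent.Results.MP_f11a48_ag.SmallestSubtorsorCM

open NumberField Module Pool.Agent.W547.KB Pool.Agent.W537.PC Pool.Agent.W527.Per
  Pool.Agent.W527.Struct Pool.Agent.TH127.SC Pool.Agent.TH127.PG Pool.Agent.TH127.PT Matrix

/-- The smallest `K`-subtorsor which contains `M`: the intersection of all of them. -/
def smallestSubtorsor {N : Type} [Fintype N] [DecidableEq N] (K : Subfield ℂ)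
    (M : Matrix N N ℂ) : Set (Matrix N N ℂ) :=
  {X | ∀ T : Set (Matrix N N ℂ), IsSubtorsor K T → M ∈ T → X ∈ T}

/-- For all fields `K` of algebraic numbers that are linearly disjoint from the fields of the CM
types `A i`, and for all period matrices `M` of abelian varieties over `K` that are geometrically
isogenous to products of copies of the `A i`, the smallest `K`-subtorsor that contains `M` contains
`M · MT(ℂ)`. -/
def SmallestIsMotivic (P : PeriodSystem) {ι : Type} [Fintype ι] (A : ι → CMPair) : Prop :=
  ∀ (K : Subfield ℂ), (∀ x ∈ K, IsAlgebraic ℚ x) → LinearlyDisjoint A K →
    ∀ {J : Type} [Fintype J] (t : J → ι) {N : Type} [Fintype N] [DecidableEq N]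
      (e : Basis N ℚ (∀ a, (A (t a)).E)) (M : Matrix N N ℂ), IsPeriodMatrix A t P e M →
      ∀ g ∈ mumfordTate A t e, M * g ∈ smallestSubtorsor K M

/-- **The smallest subtorsor of the motives of abelian varieties of CM type.** -/
theorem result (P : PeriodSystem) (hBost : P.Bost) (hDeligne : P.Deligne) {ι : Type} [Fintype ι]
    (A : ι → CMPair) :
    ((∀ i, IsAbelian (A i).E) → SmallestIsMotivic P A) ∧
    (AbelianMildOrGood A → (SimpleSubfields A ∨ TwoTermRelations P A) →
      SmallestIsMotivic P A) := by
  have key : AbelianMildOrGood A → TwoTermRelations P A → SmallestIsMotivic P A := by
    intro hA hT K hK hKA J _ t N _ _ e M hM g hg T hTs hMT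
    exact mem_of_subtorsor hBost hDeligne hA hT hK hKA hM hTs hMT hg
  have h2 : AbelianMildOrGood A → (SimpleSubfields A ∨ TwoTermRelations P A) →
      SmallestIsMotivic P A := by
    rintro hA (h | h)
    · exact key hA (twoTerm_of_simpleSubfields A hBost hDeligne h)
    · exact key hA h
  exact ⟨fun h => h2 (cond_of_abelian h).1 (Or.inl (cond_of_abelian h).2), h2⟩

end Pool.Agent.Results.MP_f11a48_ag.SmallestSubtorsorCM
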